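import Pool.Agent.RTB.ValSpec
import Pool.Agent.RTB.PolyGo

/-!
# Orientations of mixed graphs minimising the round trip: polynomial time for lengths in binary
-/

namespace Pool.Agent.Results.MP_64fdf6_lc.BinaryLengths

open Pool.Agent.TM2Lib Pool.Agent.M3 Pool.Agent.RTO Pool.Agent.RTB

/-- The bit string coding an object (see `Enc`: a natural number is the list of its binary digits,
an integer the pair of its sign and its absolute value, a rational number the pair of its numerator
and its denominator, a list is a right-nested pair, and the resulting binary tree is written in
prefix code). -/
def code {α : Type} [Enc α] (a : α) : List Bool := D.encD (enc a)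

/-- `f` is computable in polynomial time (by a Turing machine, in the length of the code of the
input), inputs being coded by `ca` and outputs by `cb`. -/
def PolyTime {α β : Type} (ca : α → List Bool) (cb : β → List Bool) (f : α → β) : Prop :=
  Nonempty (Turing.TM2ComputableInPolyTime ca cb f)

/-- Some polynomial time function `f`, given a mixed graph `G` with nonnegative rational lengths
(in binary) and two vertices `s, t`, outputs an orientation of `G` whose round-trip length is
minimum over all orientations. -/
theorem result :
    ∃ f : MixedGraph × (ℕ × ℕ) → List Bool, PolyTime code code f ∧
      ∀ (G : MixedGraph) (s t : ℕ), Nonneg G →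
        (f (G, (s, t))).length = G.2.length ∧
        ∀ τ : List Bool, τ.length = G.2.length →
          roundTrip G (f (G, (s, t))) s t ≤ roundTrip G τ s t :=
  ⟨fun x => binAlg (fun A E s t => goB s t A E) x.1 x.2.1 x.2.2,
    Comp.to_tm (ea := code) (eb := code) (poly_binAlg (poly_goB Poly.fst Poly.snd.fst'
      Poly.snd.snd'.fst' Poly.snd.snd'.snd')),
    fun G s t hG => binAlg_correct goB_solves G s t hG⟩

end Pool.Agent.Results.MP_64fdf6_lc.BinaryLengths
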